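import Pool.Agent.Helper50.Tm.Goals2
import Pool.Agent.Helper32.Nm.Surj
import Pool.Agent.Helper53.Nm.Coh2
import Pool.Agent.Helper83.Nm.Coh1
import Pool.Agent.Helper96.Nm.NPow
import Pool.Agent.Helper36.Nm.NPrime
import Pool.Agent.Helper18.Nm.Trc
import Pool.Agent.Helper97.Nm.Divu
import Pool.Agent.Helper67.Nm.EXT1
import Pool.Agent.Helper15.Nm.Ext2

/-!
Packet TW-ARI1 of the project TAME (MP_f619a5_ag): an automorphism which commutes with the Galois
group acts trivially on one-unit valued equivariant homomorphisms modulo norms.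
-/

open CategoryTheory AlgebraicGeometry Limits TensorProduct MonoidalCategory

namespace Pool.Agent.Helper57.Tm

open Pool.Agent.Helper40.Nm (Lat EqHom NT tr SURJ EXT EXT1 EXT2)
open Pool.Agent.Helper50.Tm

theorem extT : EXT := by
  intro R M S E _ _ _ _ _ _ _ _ _ _ _ _ _ _ _ _ _ _ _ _
  obtain ⟨hf, hfin, hfree, hdvr⟩ := Pool.Agent.Helper67.Nm.ext1 R M S E
  have := hf
  have := hfin
  have := hfree
  have := hdvr
  exact ⟨hf, hfin, hfree, hdvr, Pool.Agent.Helper15.Nm.ext2 R M S E⟩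

theorem surjT : SURJ := by
  have hE : EXT := extT
  exact Pool.Agent.Helper32.Nm.surj
    (Pool.Agent.Helper53.Nm.coh2 Pool.Agent.Helper83.Nm.coh1)
    (Pool.Agent.Helper96.Nm.npow (Pool.Agent.Helper36.Nm.nprime
      (Pool.Agent.Helper18.Nm.trc hE) hE Pool.Agent.Helper97.Nm.divu) hE) hE

theorem assoc_ringEquiv {S : Type} [CommRing S] [IsDomain S] [IsDiscreteValuationRing S]
    (τ : S ≃+* S) {a : S} (ha : a ≠ 0) : ∃ u : Sˣ, τ a = u * a := by
  obtain ⟨ϖ, hϖ⟩ := IsDiscreteValuationRing.exists_irreducible S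
  have h1 : Irreducible (τ ϖ) := (MulEquiv.irreducible_iff τ).2 hϖ
  obtain ⟨n, hn⟩ := IsDiscreteValuationRing.associated_pow_irreducible ha hϖ
  have h2 : Associated ϖ (τ ϖ) := IsDiscreteValuationRing.associated_of_irreducible S hϖ h1
  have h3 : Associated (τ a) (τ ϖ ^ n) := by
    have := hn.map τ
    rwa [map_pow] at this
  obtain ⟨u, hu⟩ := hn.trans (h2.pow_pow.trans h3.symm)
  exact ⟨u, by rw [← hu, mul_comm]⟩

section

variable {S E : Type} [CommRing S] [IsDomain S] [IsDiscreteValuationRing S] [Field E] [Algebra S E]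

theorem isU_div [IsFractionRing S E] (h : E ≃+* E) (τ : S ≃+* S)
    (hτ : ∀ s, h (algebraMap S E s) = algebraMap S E (τ s)) (e : Eˣ) :
    IsU S (Units.map (h : E →* E) e * e⁻¹) := by
  obtain ⟨a, b, hb, hab⟩ := IsFractionRing.div_surjective (A := S) (e : E)
  have hinj : Function.Injective (algebraMap S E) := IsFractionRing.injective S E
  have hb0 : b ≠ 0 := nonZeroDivisors.ne_zero hb
  have ha0 : a ≠ 0 := by
    rintro rfl
    rw [map_zero, zero_div] at hab
    exact e.ne_zero hab.symm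
  obtain ⟨ua, hua⟩ := assoc_ringEquiv τ ha0
  obtain ⟨ub, hub⟩ := assoc_ringEquiv τ hb0
  have hA : algebraMap S E a ≠ 0 := fun h0 => ha0 (hinj (h0.trans (map_zero _).symm))
  have hB : algebraMap S E b ≠ 0 := fun h0 => hb0 (hinj (h0.trans (map_zero _).symm))
  have hUb : algebraMap S E (ub : S) ≠ 0 := fun h0 =>
    ub.ne_zero (hinj (h0.trans (map_zero _).symm))
  have hinv : algebraMap S E ((ub⁻¹ : Sˣ) : S) * algebraMap S E (ub : S) = 1 := by
    rw [← map_mul, Units.inv_mul, map_one]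
  refine ⟨ua * ub⁻¹, ?_⟩
  have e1 : ((Units.map (h : E →* E) e * e⁻¹ : Eˣ) : E) = h (e : E) * (e : E)⁻¹ := by
    rw [Units.val_mul, Units.val_inv_eq_inv_val]
    rfl
  rw [e1, ← hab, map_div₀, hτ, hτ, hua, hub, Units.val_mul, map_mul, map_mul, map_mul,
    eq_inv_of_mul_eq_one_left hinv]
  field_simp

theorem isU1_div (h : E ≃+* E) (τ : S ≃+* S)
    (hτ : ∀ s, h (algebraMap S E s) = algebraMap S E (τ s)) (e : Eˣ) (he : IsU1 S e) :
    IsU1 S (Units.map (h : E →* E) e * e⁻¹) := by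
  obtain ⟨s, hs, hse⟩ := he
  have hu : IsUnit s := by
    by_contra hn
    have h1 : s ∈ IsLocalRing.maximalIdeal S := (IsLocalRing.mem_maximalIdeal _).2 hn
    have h2 : (1 : S) ∈ IsLocalRing.maximalIdeal S := by
      have := Ideal.sub_mem _ h1 hs
      rwa [sub_sub_cancel] at this
    exact (Ideal.ne_top_iff_one _).1 (IsLocalRing.maximalIdeal.isMaximal S).ne_top h2
  obtain ⟨v, hv⟩ := hu
  have hτm : τ s - 1 ∈ IsLocalRing.maximalIdeal S := by
    rw [IsLocalRing.mem_maximalIdeal] at hs ⊢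
    intro h1
    apply hs
    have h2 : IsUnit (τ (s - 1)) := by
      rw [map_sub, map_one]
      exact h1
    have h3 := h2.map τ.symm
    rwa [RingEquiv.symm_apply_apply] at h3
  refine ⟨τ s * ((v⁻¹ : Sˣ) : S), ?_, ?_⟩
  · have h1 : τ s * ((v⁻¹ : Sˣ) : S) - 1 = ((τ s - 1) - (s - 1)) * ((v⁻¹ : Sˣ) : S) := by
      have h2 : s * ((v⁻¹ : Sˣ) : S) = 1 := by rw [← hv, Units.mul_inv]
      linear_combination h2
    rw [h1]
    exact Ideal.mul_mem_right _ _ (Ideal.sub_mem _ hτm hs)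
  · have e1 : ((Units.map (h : E →* E) e * e⁻¹ : Eˣ) : E) = h (e : E) * (e : E)⁻¹ := by
      rw [Units.val_mul, Units.val_inv_eq_inv_val]
      rfl
    have h2 : algebraMap S E ((v⁻¹ : Sˣ) : S) * algebraMap S E (v : S) = 1 := by
      rw [← map_mul, Units.inv_mul, map_one]
    rw [e1, hse, hτ, map_mul, eq_inv_of_mul_eq_one_left h2, hv]

end

theorem NT_comp {M E : Type} [Field M] [Field E] [Algebra M E] [FiniteDimensional M E] {g : ℕ}
    (act : (E ≃ₐ[M] E) →* AddMonoid.End (Lat g)) (h : E ≃+* E)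
    (hγ : ∀ (γ : E ≃ₐ[M] E) (e : E), h (γ e) = γ (h e))
    (F : Multiplicative (Lat g) →* Eˣ) :
    NT act ((Units.map (h : E →* E)).comp F) = (Units.map (h : E →* E)).comp (NT act F) := by
  have h1 : ∀ γ : E ≃ₐ[M] E, tr act γ ((Units.map (h : E →* E)).comp F) =
      (Units.map (h : E →* E)).comp (tr act γ F) := by
    intro γ
    apply MonoidHom.ext
    intro x
    apply Units.ext
    exact (hγ γ _).symm
  unfold NT
  simp only [h1]
  apply MonoidHom.ext
  intro x
  rw [MonoidHom.finsetProd_apply, MonoidHom.comp_apply, MonoidHom.finsetProd_apply, map_prod]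
  rfl

theorem gARI1 (hADJ : Pool.Agent.Helper50.Tm.ADJ) : Pool.Agent.Helper50.Tm.ARI1 := by
  intro R M S E _ _ _ _ _ _ _ _ _ _ _ _ _ _ _ _ _ _ _ _ _ g act a hcard h τ hτ hγ ψ hψ hU
  have hF : IsFractionRing S E := IsIntegralClosure.isFractionRing_of_finite_extension R M E S
  obtain ⟨F, hFψ⟩ := surjT R M E g act ψ hψ
  have hNT : NT act ((Units.map (h : E →* E)).comp F * F⁻¹) =
      (Units.map (h : E →* E)).comp ψ * ψ⁻¹ := by
    have h1 : NT act F⁻¹ = (NT act F)⁻¹ := map_inv (Pool.Agent.Helper32.Nm.NTHom act) F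
    rw [Pool.Agent.Helper32.Nm.NT_mul, NT_comp act h hγ, h1, hFψ]
  obtain ⟨u', hu1, hu2⟩ := hADJ R M S E g act a hcard
    ((Units.map (h : E →* E)).comp F * F⁻¹) (fun x => isU_div h τ hτ (F x))
    (fun x => by
      rw [hNT]
      exact isU1_div h τ hτ (ψ x) (hU x))
  refine ⟨u', hu1, fun x => ?_⟩
  rw [hu2, hNT]
  show _ = ψ x * (Units.map (h : E →* E) (ψ x) * (ψ x)⁻¹)
  rw [mul_comm, mul_assoc, inv_mul_cancel, mul_one]

end Pool.Agent.Helper57.Tm
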